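import Pool.Agent.EG31.Gallai

/-!
# Two vertices of a 2-connected graph are joined by a path through the longer arc of a cycle
-/

set_option autoImplicit false

namespace Pool.Agent.H27A

open List Pool.Agent.TF82 Pool.Agent.TFC Pool.Agent.TFB Pool.Agent.TFN Pool.Agent.EG31

universe u

set_option linter.unusedSectionVars false

variable {V : Type u} [DecidableEq V]

theorem first_split (P : V → Prop) : ∀ l : List V, (∃ x ∈ l, P x) →
    ∃ A u B, l = A ++ u :: B ∧ P u ∧ ∀ z ∈ A, ¬ P z := by
  intro l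
  induction l with
  | nil =>
    rintro ⟨x, hx, -⟩
    simp at hx
  | cons a l ih =>
    rintro ⟨x, hx, hPx⟩
    by_cases ha : P a
    · exact ⟨[], a, l, rfl, ha, by simp⟩
    · have hx' : x ∈ l := by
        rcases List.mem_cons.1 hx with rfl | h
        · exact absurd hPx ha
        · exact h
      obtain ⟨A, u, B, h1, h2, h3⟩ := ih ⟨x, hx', hPx⟩
      refine ⟨a :: A, u, B, by rw [h1]; rfl, h2, ?_⟩
      intro z hz
      rcases List.mem_cons.1 hz with rfl | hz
      · exact ha
      · exact h3 z hz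

/-- the part of a segment up to one of its vertices -/
theorem pre {G : SimpleGraph V} {X R : List V} {z s t : V} (h : Seg G (X ++ z :: R) s t) :
    Seg G (X ++ [z]) s z := by
  obtain ⟨h1, h2, h3⟩ := h
  refine ⟨?_, ?_, by simp⟩
  · have e : X ++ z :: R = (X ++ [z]) ++ R := by simp
    rw [e, List.isChain_append] at h1
    exact h1.1
  · rcases X with _ | ⟨x, X⟩
    · simpa using h2
    · simpa using h2

/-- the part of a segment from one of its vertices -/
theorem suf {G : SimpleGraph V} {X R : List V} {z s t : V} (h : Seg G (X ++ z :: R) s t) :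
    Seg G (z :: R) z t := by
  obtain ⟨h1, h2, h3⟩ := h
  refine ⟨?_, by simp, ?_⟩
  · rw [List.isChain_append] at h1
    exact h1.2.1
  · rw [List.getLast?_append] at h3
    rcases hR : (z :: R).getLast? with _ | w
    · simp at hR
    · rw [hR] at h3
      simpa using h3

/-- joining two segments at a common vertex -/
theorem join {G : SimpleGraph V} {R A : List V} {s u t : V} (h1 : Seg G R s u)
    (h2 : Seg G (u :: A) u t) : Seg G (R ++ A) s t := by
  rcases A with _ | ⟨a, A⟩
  · have h3 : u = t := by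
      have := h2.lt
      simpa using this
    subst h3
    simpa using h1
  · have h3 := h2.ch
    rw [List.isChain_cons_cons] at h3
    refine h1.append (a2 := a) ⟨h3.2, rfl, ?_⟩ h3.1
    have h4 := h2.lt
    rwa [List.getLast?_cons_cons] at h4

/-- a path in `S` from `v` to the first vertex with `P` -/
theorem reach_first {G : SimpleGraph V} {S : Finset V} {v t : V} (h : Reach G S v t)
    (hv : v ∈ S) (P : V → Prop) (ht : P t) : ∃ R u, Seg G R v u ∧ R.Nodup ∧ (∀ z ∈ R, z ∈ S) ∧
      P u ∧ (∀ z ∈ R, P z → z = u) ∧ u ∈ R := by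
  obtain ⟨q, h1, h2, h3, h4, h5⟩ := Reach.path h hv
  have htq : t ∈ q := List.mem_of_getLast? h4
  obtain ⟨A, u, B, rfl, hu, hA⟩ := first_split P q ⟨t, htq, ht⟩
  refine ⟨A ++ [u], u, pre ⟨h2, h3, h4⟩, ?_, ?_, hu, ?_, by simp⟩
  · have e : A ++ u :: B = (A ++ [u]) ++ B := by simp
    rw [e] at h1
    exact (List.nodup_append.1 h1).1
  · intro z hz
    apply h5
    simp only [List.mem_append, List.mem_singleton] at hz
    rcases hz with hz | rfl
    · simp [hz]
    · simp
  · intro z hz hPz
    simp only [List.mem_append, List.mem_singleton] at hz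
    rcases hz with hz | rfl
    · exact absurd hPz (hA z hz)
    · rfl

/-- two paths from `w` to `C` which meet in `w` only -/
structure Fan (G : SimpleGraph V) (U C : Finset V) (w a b : V) (A B : List V) : Prop where
  sa : Seg G (w :: A) w a
  sb : Seg G (w :: B) w b
  nd : (w :: (A ++ B)).Nodup
  sub : ∀ z ∈ w :: (A ++ B), z ∈ U
  wC : w ∉ C
  aC : a ∈ C
  bC : b ∈ C
  oa : ∀ z ∈ A, z ∈ C → z = a
  ob : ∀ z ∈ B, z ∈ C → z = b

theorem Fan.symm {G : SimpleGraph V} {U C : Finset V} {w a b : V} {A B : List V}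
    (h : Fan G U C w a b A B) : Fan G U C w b a B A := by
  refine ⟨h.sb, h.sa, ?_, ?_, h.wC, h.bC, h.aC, h.ob, h.oa⟩
  · have h1 := h.nd
    rw [List.nodup_cons, List.mem_append] at h1 ⊢
    exact ⟨fun h2 => h1.1 h2.symm, List.nodup_append_comm.1 h1.2⟩
  · intro z hz
    apply h.sub
    simp only [List.mem_cons, List.mem_append] at hz ⊢
    tauto

theorem mem_last {l : List V} {w a : V} {G : SimpleGraph V} (h : Seg G (w :: l) w a)
    (hwa : w ≠ a) : a ∈ l := by
  have h1 : a ∈ w :: l := List.mem_of_getLast? h.lt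
  rcases List.mem_cons.1 h1 with h2 | h2
  · exact absurd h2.symm hwa
  · exact h2

theorem Fan.aA {G : SimpleGraph V} {U C : Finset V} {w a b : V} {A B : List V}
    (h : Fan G U C w a b A B) : a ∈ A :=
  mem_last h.sa (fun e => h.wC (e ▸ h.aC))

theorem Fan.ab {G : SimpleGraph V} {U C : Finset V} {w a b : V} {A B : List V}
    (h : Fan G U C w a b A B) : a ≠ b := by
  intro e
  have h1 := h.nd
  rw [List.nodup_cons, List.nodup_append] at h1
  exact h1.2.2.2 a h.aA b h.symm.aA e

/-- one step: `v` lies on the first path -/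
theorem Fan.stepA {G : SimpleGraph V} {U C : Finset V} {w a b v : V} {A B : List V}
    (h : Fan G U C w a b A B) (hvC : v ∉ C) (hvw : G.Adj v w) (hvA : v ∈ A) :
    ∃ a b A B, Fan G U C v a b A B := by
  obtain ⟨A1, A2, rfl⟩ := List.append_of_mem hvA
  have hnd := h.nd
  refine ⟨a, b, A2, w :: B, ?_, ?_, ?_, ?_, hvC, h.aC, h.bC, ?_, ?_⟩
  · exact suf (X := w :: A1) (by simpa using h.sa)
  · refine ⟨?_, rfl, ?_⟩
    · rw [List.isChain_cons_cons]
      exact ⟨hvw, h.sb.ch⟩
    · rw [List.getLast?_cons_cons]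
      exact h.sb.lt
  · rw [List.nodup_iff_count_le_one] at hnd ⊢
    intro z
    have h2 := hnd z
    simp only [List.count_cons, List.count_append] at h2 ⊢
    omega
  · intro z hz
    apply h.sub
    simp only [List.mem_cons, List.mem_append] at hz ⊢
    tauto
  · intro z hz hzC
    exact h.oa z (by simp [hz]) hzC
  · intro z hz hzC
    rcases List.mem_cons.1 hz with rfl | hz
    · exact absurd hzC h.wC
    · exact h.ob z hz hzC

/-- one step: a path `v :: R` outside of the fan that ends on the first path -/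
theorem Fan.stepU {G : SimpleGraph V} {U C : Finset V} {w a b v u : V} {A B R : List V}
    (h : Fan G U C w a b A B) (hvC : v ∉ C) (hvw : G.Adj v w) (hR : Seg G (v :: R) v u)
    (hRn : (v :: R).Nodup) (hRU : ∀ z ∈ v :: R, z ∈ U.erase w) (hu : u ∈ A) (hvu : v ≠ u)
    (hRo : ∀ z ∈ v :: R, z ∈ A ∨ z ∈ B ∨ z ∈ C → z = u) :
    ∃ a b A B, Fan G U C v a b A B := by
  obtain ⟨A1, A2, rfl⟩ := List.append_of_mem hu
  have hnd := h.nd
  have huR : u ∈ R := mem_last hR hvu
  have hwR : w ∉ v :: R := fun hw => (Finset.mem_erase.1 (hRU w hw)).1 rfl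
  refine ⟨a, b, R ++ A2, w :: B, ?_, ?_, ?_, ?_, hvC, h.aC, h.bC, ?_, ?_⟩
  · have h1 : Seg G (u :: A2) u a := suf (X := w :: A1) (by simpa using h.sa)
    simpa using join hR h1
  · refine ⟨?_, rfl, ?_⟩
    · rw [List.isChain_cons_cons]
      exact ⟨hvw, h.sb.ch⟩
    · rw [List.getLast?_cons_cons]
      exact h.sb.lt
  · rw [List.nodup_iff_count_le_one] at hnd hRn ⊢
    intro z
    have h2 := hnd z
    have h3 := hRn z
    simp only [List.count_cons, List.count_append] at h2 h3 ⊢
    by_cases hz : z ∈ v :: R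
    · have hzw : w ≠ z := fun e => hwR (e ▸ hz)
      have h4 : A2.count z = 0 := by
        rw [List.count_eq_zero]
        intro hzA
        have h5 := hRo z hz (Or.inl (by simp [hzA]))
        subst h5
        have h6 : 1 ≤ A2.count z := List.count_pos_iff.2 hzA
        simp at h2
        omega
      have h5 : B.count z = 0 := by
        rw [List.count_eq_zero]
        intro hzB
        have h5 := hRo z hz (Or.inr (Or.inl hzB))
        subst h5
        have h6 : 1 ≤ B.count z := List.count_pos_iff.2 hzB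
        simp at h2
        omega
      have h6 : (w == z) = false := by simpa using hzw
      rw [h6]
      simp only [Bool.false_eq_true, if_false]
      omega
    · have h4 : R.count z = 0 := by
        rw [List.count_eq_zero]
        exact fun h5 => hz (List.mem_cons_of_mem _ h5)
      have h5 : (v == z) = false := by
        have : v ≠ z := fun e => hz (by simp [e])
        simpa using this
      rw [h5, h4]
      simp only [Bool.false_eq_true, if_false]
      omega
  · intro z hz
    simp only [List.mem_cons, List.mem_append] at hz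
    rcases hz with rfl | (hz | hz) | rfl | hz
    · exact (Finset.mem_erase.1 (hRU z (by simp))).2
    · exact (Finset.mem_erase.1 (hRU z (by simp [hz]))).2
    · exact h.sub z (by simp [hz])
    · exact h.sub z (by simp)
    · exact h.sub z (by simp [hz])
  · intro z hz hzC
    rcases List.mem_append.1 hz with hz | hz
    · have h1 := hRo z (by simp [hz]) (Or.inr (Or.inr hzC))
      subst h1
      exact h.oa z (by simp) hzC
    · exact h.oa z (by simp [hz]) hzC
  · intro z hz hzC
    rcases List.mem_cons.1 hz with rfl | hz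
    · exact absurd hzC h.wC
    · exact h.ob z hz hzC

/-- one step: a path `v :: R` outside of the fan that ends on `C` -/
theorem Fan.stepC {G : SimpleGraph V} {U C : Finset V} {w a b v u : V} {A B R : List V}
    (h : Fan G U C w a b A B) (hvC : v ∉ C) (hvw : G.Adj v w) (hR : Seg G (v :: R) v u)
    (hRn : (v :: R).Nodup) (hRU : ∀ z ∈ v :: R, z ∈ U.erase w) (hu : u ∈ C)
    (hRo : ∀ z ∈ v :: R, z ∈ A ∨ z ∈ B ∨ z ∈ C → z = u) (huB : u ∉ B) :
    ∃ a b A B, Fan G U C v a b A B := by
  have hnd := h.nd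
  have hwR : w ∉ v :: R := fun hw => (Finset.mem_erase.1 (hRU w hw)).1 rfl
  refine ⟨u, b, R, w :: B, hR, ?_, ?_, ?_, hvC, hu, h.bC, ?_, ?_⟩
  · refine ⟨?_, rfl, ?_⟩
    · rw [List.isChain_cons_cons]
      exact ⟨hvw, h.sb.ch⟩
    · rw [List.getLast?_cons_cons]
      exact h.sb.lt
  · have h1 : (w :: B).Nodup := by
      rw [List.nodup_cons, List.nodup_append] at hnd
      rw [List.nodup_cons]
      exact ⟨fun h2 => hnd.1 (by simp [h2]), hnd.2.2.1⟩
    have h2 : ((v :: R) ++ (w :: B)).Nodup := by
      rw [List.nodup_append]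
      refine ⟨hRn, h1, ?_⟩
      rintro z hz z' hz' rfl
      rcases List.mem_cons.1 hz' with rfl | hz'
      · exact hwR hz
      · have h3 := hRo z hz (Or.inr (Or.inl hz'))
        exact huB (h3 ▸ hz')
    exact h2
  · intro z hz
    simp only [List.mem_cons, List.mem_append] at hz
    rcases hz with rfl | hz | rfl | hz
    · exact (Finset.mem_erase.1 (hRU z (by simp))).2
    · exact (Finset.mem_erase.1 (hRU z (by simp [hz]))).2
    · exact h.sub z (by simp)
    · exact h.sub z (by simp [hz])
  · intro z hz hzC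
    exact hRo z (by simp [hz]) (Or.inr (Or.inr hzC))
  · intro z hz hzC
    rcases List.mem_cons.1 hz with rfl | hz
    · exact absurd hzC h.wC
    · exact h.ob z hz hzC

theorem seg_cons {G : SimpleGraph V} {R : List V} {v u : V} (h : Seg G R v u) :
    ∃ R', R = v :: R' := by
  rcases R with _ | ⟨x, R⟩
  · have := h.hd
    simp at this
  · have := h.hd
    simp only [List.head?_cons, Option.some.injEq] at this
    exact ⟨R, by rw [this]⟩

theorem exists_fan {G : SimpleGraph V} {U C : Finset V} (h2 : Conn2 G U) (hCU : C ⊆ U)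
    (hC : 2 ≤ C.card) : ∀ (q : List V), q.IsChain G.Adj → (∀ z ∈ q, z ∈ U) →
    (∀ z ∈ q.getLast?, z ∈ C) → ∀ v, q.head? = some v → v ∉ C →
    ∃ a b A B, Fan G U C v a b A B := by
  intro q
  induction q with
  | nil =>
    intro _ _ _ v hv
    simp at hv
  | cons v0 q ih =>
    intro hch hU hlast v hv hvC
    simp only [List.head?_cons, Option.some.injEq] at hv
    subst hv
    rcases q with _ | ⟨w, q⟩
    · exact absurd (hlast v0 (by simp)) hvC
    · rw [List.isChain_cons_cons] at hch
      have hvU : v0 ∈ U := hU v0 (by simp)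
      have hwU : w ∈ U := hU w (by simp)
      have hvw : v0 ≠ w := hch.1.ne
      have hvUw : v0 ∈ U.erase w := Finset.mem_erase.2 ⟨hvw, hvU⟩
      by_cases hwC : w ∈ C
      · -- another vertex of `C`
        obtain ⟨t, ht, htw⟩ : ∃ t ∈ C, t ≠ w := Finset.exists_mem_ne (by omega) w
        have hr := h2 w hwU v0 hvUw t (Finset.mem_erase.2 ⟨htw, hCU ht⟩)
        obtain ⟨R, u, hR, hRn, hRU, hu, hRo, -⟩ := reach_first hr hvUw (fun z => z ∈ C) ht
        obtain ⟨R, rfl⟩ := seg_cons hR
        have hwR : w ∉ v0 :: R := fun hw => (Finset.mem_erase.1 (hRU w hw)).1 rfl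
        refine ⟨u, w, R, [w], hR, ?_, ?_, ?_, hvC, hu, hwC, ?_, ?_⟩
        · refine ⟨?_, rfl, by simp⟩
          simpa using hch.1
        · have h3 : ((v0 :: R) ++ [w]).Nodup := by
            rw [List.nodup_append]
            refine ⟨hRn, by simp, ?_⟩
            rintro z hz z' hz' rfl
            simp only [List.mem_singleton] at hz'
            exact hwR (hz' ▸ hz)
          exact h3
        · intro z hz
          simp only [List.mem_cons, List.mem_append, List.not_mem_nil, or_false] at hz
          rcases hz with rfl | hz | rfl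
          · exact hvU
          · exact (Finset.mem_erase.1 (hRU z (by simp [hz]))).2
          · exact hwU
        · intro z hz hzC
          exact hRo z (by simp [hz]) hzC
        · intro z hz _
          simpa using hz
      · obtain ⟨a, b, A, B, hF⟩ := ih hch.2 (fun z hz => hU z (List.mem_cons_of_mem _ hz))
          (fun z hz => hlast z (by rw [List.getLast?_cons_cons]; exact hz)) w rfl hwC
        by_cases hvA : v0 ∈ A
        · exact hF.stepA hvC hch.1 hvA
        by_cases hvB : v0 ∈ B
        · exact hF.symm.stepA hvC hch.1 hvB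
        have haU : a ∈ U.erase w :=
          Finset.mem_erase.2 ⟨fun e => hwC (e ▸ hF.aC), hCU hF.aC⟩
        have hr := h2 w hwU v0 hvUw a haU
        obtain ⟨R, u, hR, hRn, hRU, hu, hRo, -⟩ := reach_first hr hvUw
          (fun z => z ∈ A ∨ z ∈ B ∨ z ∈ C) (Or.inl hF.aA)
        obtain ⟨R, rfl⟩ := seg_cons hR
        have hvu : v0 ≠ u := by
          rintro rfl
          rcases hu with h3 | h3 | h3
          · exact hvA h3
          · exact hvB h3
          · exact hvC h3
        by_cases huA : u ∈ A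
        · exact hF.stepU hvC hch.1 hR hRn hRU huA hvu hRo
        by_cases huB : u ∈ B
        · exact hF.symm.stepU hvC hch.1 hR hRn hRU huB hvu
            (fun z hz hz' => hRo z hz (by tauto))
        have huC : u ∈ C := by tauto
        exact hF.stepC hvC hch.1 hR hRn hRU huC hRo huB

/-- two disjoint paths from `x` and `y` to `C` -/
structure Two (G : SimpleGraph V) (U C : Finset V) (x y x' y' : V) (P Q : List V) : Prop where
  sp : Seg G P x x'
  sq : Seg G Q y y'
  nd : (P ++ Q).Nodup
  sub : ∀ z ∈ P ++ Q, z ∈ U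
  xC : x' ∈ C
  yC : y' ∈ C
  op : ∀ z ∈ P, z ∈ C → z = x'
  oq : ∀ z ∈ Q, z ∈ C → z = y'

theorem Two.symm {G : SimpleGraph V} {U C : Finset V} {x y x' y' : V} {P Q : List V}
    (h : Two G U C x y x' y' P Q) : Two G U C y x y' x' Q P := by
  refine ⟨h.sq, h.sp, List.nodup_append_comm.1 h.nd, ?_, h.yC, h.xC, h.oq, h.op⟩
  intro z hz
  apply h.sub
  rw [List.mem_append] at hz ⊢
  exact hz.symm

theorem two_of_mem {G : SimpleGraph V} {U C : Finset V} (h2 : Conn2 G U) (hCU : C ⊆ U)
    (hC : 2 ≤ C.card) {x y : V} (hxC : x ∈ C) (hy : y ∈ U) (hxy : x ≠ y) :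
    ∃ x' y' P Q, Two G U C x y x' y' P Q := by
  have hyU : y ∈ U.erase x := Finset.mem_erase.2 ⟨hxy.symm, hy⟩
  obtain ⟨t, ht, htx⟩ : ∃ t ∈ C, t ≠ x := Finset.exists_mem_ne (by omega) x
  have hr := h2 x (hCU hxC) y hyU t (Finset.mem_erase.2 ⟨htx, hCU ht⟩)
  obtain ⟨R, u, hR, hRn, hRU, hu, hRo, -⟩ := reach_first hr hyU (fun z => z ∈ C) ht
  have hxR : x ∉ R := fun h => (Finset.mem_erase.1 (hRU x h)).1 rfl
  refine ⟨x, u, [x], R, ⟨by simp, rfl, by simp⟩, hR, ?_, ?_, hxC, hu, ?_, hRo⟩
  · simpa using ⟨hxR, hRn⟩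
  · intro z hz
    simp only [List.mem_append, List.mem_singleton] at hz
    rcases hz with rfl | hz
    · exact hCU hxC
    · exact (Finset.mem_erase.1 (hRU z hz)).2
  · intro z hz _
    simpa using hz

theorem Fan.two {G : SimpleGraph V} {U C : Finset V} {x a b y u : V} {A B R : List V}
    (h : Fan G U C x a b A B) (hR : Seg G R y u)
    (hRn : R.Nodup) (hRU : ∀ z ∈ R, z ∈ U.erase x) (hu : u ∈ A)
    (hRo : ∀ z ∈ R, z ∈ A ∨ z ∈ B ∨ z ∈ C → z = u) (huR : u ∈ R) :
    ∃ x' y' P Q, Two G U C x y x' y' P Q := by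
  obtain ⟨A1, A2, rfl⟩ := List.append_of_mem hu
  have hnd := h.nd
  have hxR : x ∉ R := fun hw => (Finset.mem_erase.1 (hRU x hw)).1 rfl
  refine ⟨b, a, x :: B, R ++ A2, h.sb, ?_, ?_, ?_, h.bC, h.aC, ?_, ?_⟩
  · have h1 : Seg G (u :: A2) u a := suf (X := x :: A1) (by simpa using h.sa)
    exact join hR h1
  · rw [List.nodup_iff_count_le_one] at hnd hRn ⊢
    intro z
    have h2 := hnd z
    have h3 := hRn z
    simp only [List.count_cons, List.count_append] at h2 h3 ⊢
    by_cases hz : z ∈ R
    · have hzw : x ≠ z := fun e => hxR (e ▸ hz)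
      have h4 : A2.count z = 0 := by
        rw [List.count_eq_zero]
        intro hzA
        have h5 := hRo z hz (Or.inl (by simp [hzA]))
        subst h5
        have h6 : 1 ≤ A2.count z := List.count_pos_iff.2 hzA
        simp at h2
        omega
      have h5 : B.count z = 0 := by
        rw [List.count_eq_zero]
        intro hzB
        have h5 := hRo z hz (Or.inr (Or.inl hzB))
        subst h5
        have h6 : 1 ≤ B.count z := List.count_pos_iff.2 hzB
        simp at h2
        omega
      have h6 : (x == z) = false := by simpa using hzw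
      rw [h6]
      simp only [Bool.false_eq_true, if_false]
      omega
    · have h4 : R.count z = 0 := by
        rw [List.count_eq_zero]
        exact hz
      rw [h4]
      omega
  · intro z hz
    simp only [List.mem_cons, List.mem_append] at hz
    rcases hz with (rfl | hz) | hz | hz
    · exact h.sub z (by simp)
    · exact h.sub z (by simp [hz])
    · exact (Finset.mem_erase.1 (hRU z hz)).2
    · exact h.sub z (by simp [hz])
  · intro z hz hzC
    rcases List.mem_cons.1 hz with rfl | hz
    · exact absurd hzC h.wC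
    · exact h.ob z hz hzC
  · intro z hz hzC
    rcases List.mem_append.1 hz with hz | hz
    · have h1 := hRo z hz (Or.inr (Or.inr hzC))
      subst h1
      exact h.oa z (by simp) hzC
    · exact h.oa z (by simp [hz]) hzC

/-- two disjoint paths from two vertices to a set with at least two elements -/
theorem exists_two {G : SimpleGraph V} {U C : Finset V} (h2 : Conn2 G U) (hCU : C ⊆ U)
    (hC : 2 ≤ C.card) {x y : V} (hx : x ∈ U) (hy : y ∈ U) (hxy : x ≠ y) :
    ∃ x' y' P Q, Two G U C x y x' y' P Q := by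
  by_cases hxC : x ∈ C
  · exact two_of_mem h2 hCU hC hxC hy hxy
  by_cases hyC : y ∈ C
  · obtain ⟨x', y', P, Q, h⟩ := two_of_mem h2 hCU hC hyC hx hxy.symm
    exact ⟨y', x', Q, P, h.symm⟩
  -- a path from `x` to `C`
  obtain ⟨t, ht, hty⟩ : ∃ t ∈ C, t ≠ y := Finset.exists_mem_ne (by omega) y
  have hxUy : x ∈ U.erase y := Finset.mem_erase.2 ⟨hxy, hx⟩
  have hr := h2 y hy x hxUy t (Finset.mem_erase.2 ⟨hty, hCU ht⟩)
  obtain ⟨q, h3, h4, h5, h6, h7⟩ := Reach.path hr hxUy
  obtain ⟨a, b, A, B, hF⟩ := exists_fan h2 hCU hC q h4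
    (fun z hz => (Finset.mem_erase.1 (h7 z hz)).2)
    (fun z hz => by
      rw [h6] at hz
      simp only [Option.mem_def, Option.some.injEq] at hz
      exact hz ▸ ht) x h5 hxC
  have hyUx : y ∈ U.erase x := Finset.mem_erase.2 ⟨hxy.symm, hy⟩
  have haU : a ∈ U.erase x := Finset.mem_erase.2 ⟨fun e => hxC (e ▸ hF.aC), hCU hF.aC⟩
  have hr := h2 x hx y hyUx a haU
  obtain ⟨R, u, hR, hRn, hRU, hu, hRo, huR⟩ := reach_first hr hyUx
    (fun z => z ∈ A ∨ z ∈ B ∨ z ∈ C) (Or.inl hF.aA)
  by_cases huA : u ∈ A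
  · exact hF.two hR hRn hRU huA hRo huR
  by_cases huB : u ∈ B
  · exact hF.symm.two hR hRn hRU huB (fun z hz hz' => hRo z hz (by tauto)) huR
  have huC : u ∈ C := by tauto
  have hxR : x ∉ R := fun hw => (Finset.mem_erase.1 (hRU x hw)).1 rfl
  refine ⟨a, u, x :: A, R, hF.sa, hR, ?_, ?_, hF.aC, huC, ?_, ?_⟩
  · rw [List.nodup_append]
    have hnd := hF.nd
    rw [List.nodup_cons, List.nodup_append] at hnd
    refine ⟨?_, hRn, ?_⟩
    · rw [List.nodup_cons]
      exact ⟨fun h8 => hnd.1 (by simp [h8]), hnd.2.1⟩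
    · rintro z hz z' hz' rfl
      rcases List.mem_cons.1 hz with rfl | hz
      · exact hxR hz'
      · have h8 := hRo z hz' (Or.inl hz)
        exact huA (h8 ▸ hz)
  · intro z hz
    simp only [List.mem_cons, List.mem_append] at hz
    rcases hz with (rfl | hz) | hz
    · exact hx
    · exact hF.sub z (by simp [hz])
    · exact (Finset.mem_erase.1 (hRU z hz)).2
  · intro z hz hzC
    rcases List.mem_cons.1 hz with rfl | hz
    · exact absurd hzC hxC
    · exact hF.oa z hz hzC
  · intro z hz hzC
    exact hRo z hz (Or.inr (Or.inr hzC))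

/-- the two arcs of a cycle -/
theorem arcs {G : SimpleGraph V} {c : List V} (hc : CycL G c) {x y : V} (hx : x ∈ c)
    (hy : y ∈ c) (hxy : x ≠ y) : ∃ D : List V, (x :: (D ++ [y])).IsChain G.Adj ∧
      (x :: (D ++ [y])).Nodup ∧ (∀ z ∈ D, z ∈ c) ∧ c.length + 2 ≤ 2 * (D.length + 2) := by
  obtain ⟨A, B, hr, -, -⟩ := split_two hc.1 hx hy hxy
  have h1 := hc.of_isRotated hr
  have h2 : CycL G ((y :: B) ++ (x :: A)) := h1.rot
  have hlen : c.length = A.length + B.length + 2 := by
    have := hr.perm.length_eq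
    simp only [List.length_append, List.length_cons] at this
    omega
  have hmem : ∀ z ∈ (x :: A) ++ (y :: B), z ∈ c := fun z hz => hr.perm.mem_iff.2 hz
  have key : ∀ (s t : V) (X Y : List V), CycL G ((s :: X) ++ (t :: Y)) →
      (s :: (X ++ [t])).IsChain G.Adj ∧ (s :: (X ++ [t])).Nodup := by
    intro s t X Y h
    have e : (s :: X) ++ (t :: Y) = (s :: (X ++ [t])) ++ Y := by simp
    have h3 := h.2.2.1
    have h4 := h.1
    rw [e] at h3 h4
    exact ⟨(List.isChain_append.1 h3).1, (List.nodup_append.1 h4).1⟩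
  by_cases hAB : B.length ≤ A.length
  · have h3 := key x y A B h1
    exact ⟨A, h3.1, h3.2, fun z hz => hmem z (by simp [hz]), by omega⟩
  · have h3 := key y x B A h2
    refine ⟨B.reverse, ?_, ?_, fun z hz => hmem z (by simp at hz; simp [hz]), ?_⟩
    · have e : x :: (B.reverse ++ [y]) = (y :: (B ++ [x])).reverse := by simp
      rw [e, List.isChain_reverse]
      exact h3.1.imp (fun _ _ h => h.symm)
    · have e : x :: (B.reverse ++ [y]) = (y :: (B ++ [x])).reverse := by simp
      rw [e, List.nodup_reverse]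
      exact h3.2
    · rw [List.length_reverse]
      omega

/-- **The longer arc.**  In a graph without cut vertices any two vertices are joined by a path
with at least `c.length / 2 + 1` vertices, for every cycle `c`. -/
theorem arc_link {G : SimpleGraph V} {U : Finset V} (h2 : Conn2 G U) {c : List V}
    (hc : CycL G c) (hcU : ∀ z ∈ c, z ∈ U) {x y : V} (hx : x ∈ U) (hy : y ∈ U) (hxy : x ≠ y) :
    ∃ Q : List V, Seg G Q x y ∧ Q.Nodup ∧ (∀ z ∈ Q, z ∈ U) ∧ c.length + 2 ≤ 2 * Q.length := by
  have hCU : c.toFinset ⊆ U := fun z hz => hcU z (List.mem_toFinset.1 hz)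
  have hC : 2 ≤ c.toFinset.card := by
    rw [List.toFinset_card_of_nodup hc.1]
    have := hc.2.1
    omega
  obtain ⟨x', y', P, Q, h⟩ := exists_two h2 hCU hC hx hy hxy
  have hxP : x' ∈ P := List.mem_of_getLast? h.sp.lt
  have hyQ : y' ∈ Q := List.mem_of_getLast? h.sq.lt
  have hnd := List.nodup_append.1 h.nd
  have hne : x' ≠ y' := hnd.2.2 x' hxP y' hyQ
  obtain ⟨D, hD, hDn, hDc, hDl⟩ := arcs hc (List.mem_toFinset.1 h.xC) (List.mem_toFinset.1 h.yC)
    hne
  have hxD : x' ∉ D := fun h3 => (List.nodup_cons.1 hDn).1 (by simp [h3])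
  have hyD : y' ∉ D := by
    intro h3
    have h4 := (List.nodup_append.1 (List.nodup_cons.1 hDn).2).2.2
    exact h4 y' h3 y' (by simp) rfl
  refine ⟨P ++ (D ++ Q.reverse), link_seg h.sp hD h.sq.rev, ?_, ?_, ?_⟩
  · rw [List.nodup_append]
    refine ⟨hnd.1, ?_, ?_⟩
    · rw [List.nodup_append]
      refine ⟨(List.nodup_append.1 (List.nodup_cons.1 hDn).2).1, List.nodup_reverse.2 hnd.2.1, ?_⟩
      rintro z hz z' hz' rfl
      rw [List.mem_reverse] at hz'
      have h3 := h.oq z hz' (List.mem_toFinset.2 (hDc z hz))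
      exact hyD (h3 ▸ hz)
    · rintro z hz z' hz' rfl
      rw [List.mem_append, List.mem_reverse] at hz'
      rcases hz' with hz' | hz'
      · have h3 := h.op z hz (List.mem_toFinset.2 (hDc z hz'))
        exact hxD (h3 ▸ hz')
      · exact hnd.2.2 z hz z hz' rfl
  · intro z hz
    simp only [List.mem_append, List.mem_reverse] at hz
    rcases hz with hz | hz | hz
    · exact h.sub z (by simp [hz])
    · exact hcU z (hDc z hz)
    · exact h.sub z (by simp [hz])
  · have h3 := h.sp.pos
    have h4 := h.sq.pos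
    simp only [List.length_append, List.length_reverse]
    omega

end Pool.Agent.H27A
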