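import Pool.Agent.H27A.Gam

/-!
# A longest cycle is long if there is a set outside of it with long inner links
-/

set_option autoImplicit false

namespace Pool.Agent.H27A

open List Pool.Agent.TF82 Pool.Agent.TFC Pool.Agent.TFB Pool.Agent.TFN Pool.Agent.EG31

universe u

set_option linter.unusedSectionVars false

variable {V : Type u} [DecidableEq V]

/-- the part of a segment from its last vertex with `P` -/
theorem last_part {G : SimpleGraph V} (P : V → Prop) {l : List V} {s t : V} (h : Seg G l s t)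
    (hs : P s) : ∃ (X : List V) (x : V) (R : List V), l = X ++ x :: R ∧ P x ∧ (∀ z ∈ R, ¬ P z) ∧
      Seg G (x :: R) x t := by
  have hsl : s ∈ l.reverse := by
    rw [List.mem_reverse]
    exact List.mem_of_mem_head? (by rw [h.hd]; rfl)
  obtain ⟨A, x, B, h1, h2, h3⟩ := first_split P l.reverse ⟨s, hsl, hs⟩
  have h4 : l = B.reverse ++ x :: A.reverse := by
    have h5 : l.reverse.reverse = (A ++ x :: B).reverse := by rw [h1]
    simpa using h5
  refine ⟨B.reverse, x, A.reverse, h4, h2, fun z hz => h3 z (List.mem_reverse.1 hz), ?_⟩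
  rw [h4] at h
  exact suf h

/-- **Core.**  If any two vertices of `D`, outside of the longest cycle `c` of the 2-connected
set `U`, are joined inside `D` by at least `n` vertices, then `c` has at least `2 n + 2`
vertices. -/
theorem gamma_core {G : SimpleGraph V} {U D : Finset V} {n : ℕ} (h2 : Conn2 G U) {c : List V}
    (hc : CycL G c) (hcU : ∀ z ∈ c, z ∈ U) (hmax : ∀ c' : List V, CycL G c' →
      (∀ z ∈ c', z ∈ U) → c'.length ≤ c.length) (hDU : D ⊆ U) (hDc : ∀ z ∈ D, z ∉ c)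
    (hD2 : 2 ≤ D.card) (hn : ∀ x ∈ D, ∀ y ∈ D, x ≠ y → ∃ Q : List V,
      Seg G Q x y ∧ Q.Nodup ∧ (∀ z ∈ Q, z ∈ D) ∧ n ≤ Q.length) : 2 * n + 2 ≤ c.length := by
  have hC : 2 ≤ c.toFinset.card := by
    rw [List.toFinset_card_of_nodup hc.1]
    have := hc.2.1
    omega
  have hCU : c.toFinset ⊆ U := fun z hz => hcU z (List.mem_toFinset.1 hz)
  obtain ⟨x, hx⟩ : D.Nonempty := Finset.card_pos.1 (by omega)
  obtain ⟨y, hy, hyx⟩ : ∃ y ∈ D, y ≠ x := Finset.exists_mem_ne (by omega) x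
  obtain ⟨x', y', P, Q, h⟩ := exists_two h2 hCU hC (hDU hx) (hDU hy) hyx.symm
  have hnd := List.nodup_append.1 h.nd
  -- the two paths without their last vertices
  have ex : ∀ (P : List V) (x x' : V), Seg G P x x' → P.Nodup → (∀ z ∈ P, z ∈ U) →
      (∀ z ∈ P, z ∈ c.toFinset → z = x') → x ∈ D → x' ∈ c.toFinset →
      ∃ (P0 : List V) (p : V), P = P0 ++ [x'] ∧ Seg G P0 x p ∧ G.Adj p x' ∧
        (∀ z ∈ P0, z ∈ U \ c.toFinset) := by
    intro P x x' hP hPn hPU hPC hx hx'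
    obtain ⟨P0, p, h3, h4, h5, h6, h7⟩ := exit (C := c.toFinset) (Z := U \ c.toFinset)
      (fun z hz => (Finset.mem_sdiff.1 hz).2)
      (fun w hw z hz hwz => by
        by_cases hzc : z ∈ c.toFinset
        · exact Or.inr hzc
        · exact Or.inl (Finset.mem_sdiff.2 ⟨hz, hzc⟩)) hP hPU hPn hPC
      (Finset.mem_sdiff.2 ⟨hDU hx, fun h => hDc x hx (List.mem_toFinset.1 h)⟩) hx'
    exact ⟨P0, p, h3, h4, h5, h6⟩
  obtain ⟨P0, p, hP0, hPs, hpx, hPZ⟩ := ex P x x' h.sp hnd.1 (fun z hz => h.sub z (by simp [hz]))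
    h.op hx h.xC
  obtain ⟨Q0, q, hQ0, hQs, hqy, hQZ⟩ := ex Q y y' h.sq hnd.2.1
    (fun z hz => h.sub z (by simp [hz])) h.oq hy h.yC
  -- the last vertices in `D`
  obtain ⟨X1, a, R1, hR1, haD, hR1D, hS1⟩ := last_part (fun z => z ∈ D) hPs hx
  obtain ⟨X2, b, R2, hR2, hbD, hR2D, hS2⟩ := last_part (fun z => z ∈ D) hQs hy
  have hPn : P0.Nodup := by
    have h3 := hnd.1
    rw [hP0] at h3
    exact (List.nodup_append.1 h3).1
  have hQn : Q0.Nodup := by
    have h3 := hnd.2.1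
    rw [hQ0] at h3
    exact (List.nodup_append.1 h3).1
  have hPQ : ∀ z ∈ P0, ∀ w ∈ Q0, z ≠ w := by
    intro z hz w hw
    exact hnd.2.2 z (by rw [hP0]; simp [hz]) w (by rw [hQ0]; simp [hw])
  have hR1P : ∀ z ∈ a :: R1, z ∈ P0 := fun z hz => by
    rw [hR1]
    exact List.mem_append_right _ hz
  have hR2Q : ∀ z ∈ b :: R2, z ∈ Q0 := fun z hz => by
    rw [hR2]
    exact List.mem_append_right _ hz
  have hab : a ≠ b := hPQ a (hR1P a (by simp)) b (hR2Q b (by simp))
  obtain ⟨M, hM, hMn, hMD, hMl⟩ := hn a haD b hbD hab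
  -- the link
  have hL1 : Seg G (R1.reverse ++ M) p b := by
    have h3 : Seg G (M.reverse ++ R1) b p := join hM.rev hS1
    have h4 := h3.rev
    simpa using h4
  have hL2 : Seg G ((R1.reverse ++ M) ++ R2) p q := join hL1 hS2
  have hR1n : (a :: R1).Nodup := by
    rw [hR1] at hPn
    exact (List.nodup_append.1 hPn).2.1
  have hR2n : (b :: R2).Nodup := by
    rw [hR2] at hQn
    exact (List.nodup_append.1 hQn).2.1
  have hLn : ((R1.reverse ++ M) ++ R2).Nodup := by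
    rw [List.nodup_append]
    refine ⟨?_, (List.nodup_cons.1 hR2n).2, ?_⟩
    · rw [List.nodup_append]
      refine ⟨List.nodup_reverse.2 (List.nodup_cons.1 hR1n).2, hMn, ?_⟩
      rintro z hz w hw rfl
      exact hR1D z (List.mem_reverse.1 hz) (hMD z hw)
    · rintro z hz w hw rfl
      rcases List.mem_append.1 hz with hz | hz
      · exact hPQ z (hR1P z (by simp [List.mem_reverse.1 hz])) z (hR2Q z (by simp [hw])) rfl
      · exact hR2D z hw (hMD z hz)
  have hLZ : ∀ z ∈ (R1.reverse ++ M) ++ R2, z ∈ U ∧ z ∉ c := by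
    intro z hz
    simp only [List.mem_append, List.mem_reverse] at hz
    rcases hz with (hz | hz) | hz
    · have h3 := Finset.mem_sdiff.1 (hPZ z (hR1P z (by simp [hz])))
      exact ⟨h3.1, fun h4 => h3.2 (List.mem_toFinset.2 h4)⟩
    · exact ⟨hDU (hMD z hz), hDc z (hMD z hz)⟩
    · have h3 := Finset.mem_sdiff.1 (hQZ z (hR2Q z (by simp [hz])))
      exact ⟨h3.1, fun h4 => h3.2 (List.mem_toFinset.2 h4)⟩
  have hxP : x' ∈ P := List.mem_of_getLast? h.sp.lt
  have hyQ : y' ∈ Q := List.mem_of_getLast? h.sq.lt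
  have h3 := two_hubs hc hcU hmax hL2 hLn (fun z hz => (hLZ z hz).1) (fun z hz => (hLZ z hz).2)
    (List.mem_toFinset.1 h.xC) (List.mem_toFinset.1 h.yC) (hnd.2.2 x' hxP y' hyQ) hpx hqy
  simp only [List.length_append, List.length_reverse] at h3
  omega

/-- so any two vertices of `U` are joined by at least `n + 2` vertices -/
theorem core_links {G : SimpleGraph V} {U D : Finset V} {n : ℕ} (h2 : Conn2 G U) {c : List V}
    (hc : CycL G c) (hcU : ∀ z ∈ c, z ∈ U) (hmax : ∀ c' : List V, CycL G c' →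
      (∀ z ∈ c', z ∈ U) → c'.length ≤ c.length) (hDU : D ⊆ U) (hDc : ∀ z ∈ D, z ∉ c)
    (hD2 : 2 ≤ D.card) (hn : ∀ x ∈ D, ∀ y ∈ D, x ≠ y → ∃ Q : List V,
      Seg G Q x y ∧ Q.Nodup ∧ (∀ z ∈ Q, z ∈ D) ∧ n ≤ Q.length) {x y : V} (hx : x ∈ U)
    (hy : y ∈ U) (hxy : x ≠ y) :
    ∃ Q : List V, Seg G Q x y ∧ Q.Nodup ∧ (∀ z ∈ Q, z ∈ U) ∧ n + 2 ≤ Q.length :=
  links_of_long h2 hc hcU (gamma_core h2 hc hcU hmax hDU hDc hD2 hn) hx hy hxy

end Pool.Agent.H27A
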