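import Pool.Agent.H27A.Arc
import Pool.Agent.EG31.Leaf

/-!
# The length of a longest cycle of a 2-connected graph from the links of one component
-/

set_option autoImplicit false

namespace Pool.Agent.H27A

open List Pool.Agent.TF82 Pool.Agent.TFC Pool.Agent.TFB Pool.Agent.TFN Pool.Agent.EG31

universe u

set_option linter.unusedSectionVars false

variable {V : Type u} [DecidableEq V]

/-- closing a segment by an edge -/
theorem cyc_of_seg {G : SimpleGraph V} {l : List V} {a b : V} (h : Seg G l a b) (hab : G.Adj b a)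
    (hn : l.Nodup) (h3 : 3 ≤ l.length) : CycL G l := by
  refine ⟨hn, h3, h.ch, ?_⟩
  intro x hx y hy
  rw [h.lt] at hx
  rw [h.hd] at hy
  simp only [Option.mem_def, Option.some.injEq] at hx hy
  rw [← hx, ← hy]
  exact hab

/-- **Two hubs.**  A path `Q` outside of a longest cycle `c` whose ends are adjacent to two
different vertices of `c` is shorter than both arcs. -/
theorem two_hubs {G : SimpleGraph V} {U : Finset V} {c : List V} (hc : CycL G c)
    (hcU : ∀ z ∈ c, z ∈ U) (hmax : ∀ c' : List V, CycL G c' → (∀ z ∈ c', z ∈ U) →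
      c'.length ≤ c.length) {Q : List V} {p q c1 c2 : V} (hQ : Seg G Q p q) (hQn : Q.Nodup)
    (hQU : ∀ z ∈ Q, z ∈ U) (hQc : ∀ z ∈ Q, z ∉ c) (h1 : c1 ∈ c) (h2 : c2 ∈ c) (h12 : c1 ≠ c2)
    (hp : G.Adj p c1) (hq : G.Adj q c2) : 2 * Q.length + 2 ≤ c.length := by
  obtain ⟨A, B, hr, -, -⟩ := split_two hc.1 h1 h2 h12
  have hc1 := hc.of_isRotated hr
  have hc2 : CycL G ((c2 :: B) ++ (c1 :: A)) := hc1.rot
  have hlen : c.length = A.length + B.length + 2 := by
    have := hr.perm.length_eq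
    simp only [List.length_append, List.length_cons] at this
    omega
  have hmem : ∀ z ∈ (c1 :: A) ++ (c2 :: B), z ∈ c := fun z hz => hr.perm.mem_iff.2 hz
  have hpos := hQ.pos
  have key : ∀ (s t a b : V) (X Y R : List V), CycL G ((s :: X) ++ (t :: Y)) →
      (∀ z ∈ (s :: X) ++ (t :: Y), z ∈ c) → Seg G R a b → R.Nodup → (∀ z ∈ R, z ∈ U) →
      (∀ z ∈ R, z ∉ c) → 1 ≤ R.length → G.Adj t a → G.Adj b s →
      X.length + 2 + R.length ≤ c.length := by
    intro s t a b X Y R h hXY hR hRn hRU hRc hRp hta hbs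
    have e : (s :: X) ++ (t :: Y) = (s :: (X ++ [t])) ++ Y := by simp
    have h3 := h.2.2.1
    have h4 := h.1
    rw [e] at h3 h4
    have h5 : Seg G (s :: (X ++ [t])) s t := by
      refine ⟨(List.isChain_append.1 h3).1, rfl, ?_⟩
      rw [← List.cons_append, List.getLast?_append]
      rfl
    have h6 := h5.append hR hta
    have h7 : CycL G ((s :: (X ++ [t])) ++ R) := by
      refine cyc_of_seg h6 hbs ?_ ?_
      · rw [List.nodup_append]
        refine ⟨(List.nodup_append.1 h4).1, hRn, ?_⟩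
        rintro z hz z' hz' rfl
        refine hRc z hz' (hXY z ?_)
        rw [e]
        exact List.mem_append_left _ hz
      · simp only [List.length_append, List.length_cons, List.length_nil]
        omega
    have h8 := hmax _ h7 (by
      intro z hz
      rcases List.mem_append.1 hz with hz | hz
      · refine hcU z (hXY z ?_)
        rw [e]
        exact List.mem_append_left _ hz
      · exact hRU z hz)
    simp only [List.length_append, List.length_cons, List.length_nil] at h8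
    omega
  have k1 := key c1 c2 q p A B Q.reverse hc1 hmem hQ.rev (List.nodup_reverse.2 hQn)
    (fun z hz => hQU z (List.mem_reverse.1 hz)) (fun z hz => hQc z (List.mem_reverse.1 hz))
    (by rw [List.length_reverse]; exact hpos) hq.symm hp
  have k2 := key c2 c1 p q B A Q hc2 (fun z hz => hmem z (by
    simp only [List.mem_append, List.mem_cons] at hz ⊢
    tauto)) hQ hQn hQU hQc hpos hp.symm hq
  rw [List.length_reverse] at k1
  omega

theorem chain_closed {G : SimpleGraph V} (T : V → Prop) : ∀ (l : List V), l.IsChain G.Adj →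
    (∀ w ∈ l, ∀ z ∈ l, T w → G.Adj w z → T z) → (∀ x ∈ l.head?, T x) → ∀ z ∈ l, T z := by
  intro l
  induction l with
  | nil =>
    intro _ _ _ z hz
    simp at hz
  | cons a l ih =>
    intro hch hcl hhd z hz
    have ha : T a := hhd a (by simp)
    rcases List.mem_cons.1 hz with rfl | hz
    · exact ha
    · rcases l with _ | ⟨b, l⟩
      · simp at hz
      · rw [List.isChain_cons_cons] at hch
        refine ih hch.2 (fun w hw z hz => hcl w (List.mem_cons_of_mem _ hw) z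
          (List.mem_cons_of_mem _ hz)) ?_ z hz
        intro x hx
        simp only [List.head?_cons, Option.mem_def, Option.some.injEq] at hx
        subst hx
        exact hcl a (by simp) b (by simp) ha hch.1

/-- the last vertex before `C` on a path that starts in a component `Z` -/
theorem exit {G : SimpleGraph V} {U C Z : Finset V} (hZC : ∀ z ∈ Z, z ∉ C)
    (hcl : ∀ w ∈ Z, ∀ z ∈ U, G.Adj w z → z ∈ Z ∨ z ∈ C) {P : List V} {x x' : V}
    (hP : Seg G P x x') (hPU : ∀ z ∈ P, z ∈ U) (hPn : P.Nodup)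
    (hPC : ∀ z ∈ P, z ∈ C → z = x') (hx : x ∈ Z) (hx' : x' ∈ C) :
    ∃ (P0 : List V) (p : V), P = P0 ++ [x'] ∧ Seg G P0 x p ∧ G.Adj p x' ∧ (∀ z ∈ P0, z ∈ Z) ∧
      p ∈ P0 := by
  obtain ⟨P0, rfl⟩ : ∃ P0, P = P0 ++ [x'] := by
    have h5 := hP.lt
    rw [List.getLast?_eq_some_iff] at h5
    exact h5
  have hne : P0 ≠ [] := by
    rintro rfl
    have h6 := hP.hd
    simp only [List.nil_append, List.head?_cons, Option.some.injEq] at h6
    exact hZC x hx (h6 ▸ hx')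
  have hch := hP.ch
  rw [List.isChain_append] at hch
  have hhd : P0.head? = some x := by
    have h6 := hP.hd
    rw [List.head?_append] at h6
    rcases P0 with _ | ⟨a, P0⟩
    · exact absurd rfl hne
    · simpa using h6
  obtain ⟨p, hp⟩ : ∃ p, P0.getLast? = some p := by
    rw [List.getLast?_eq_getLast_of_ne_nil hne]
    exact ⟨_, rfl⟩
  have hx'P : x' ∉ P0 := by
    intro h
    rw [List.nodup_append] at hPn
    exact hPn.2.2 x' h x' (by simp) rfl
  refine ⟨P0, p, rfl, ⟨hch.1, hhd, hp⟩, ?_, ?_, List.mem_of_getLast? hp⟩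
  · exact hch.2.2 p hp x' (by simp)
  · refine chain_closed (fun z => z ∈ Z) P0 hch.1 ?_ ?_
    · intro w hw z hz hwZ hwz
      rcases hcl w hwZ z (hPU z (by simp [hz])) hwz with h7 | h7
      · exact h7
      · have h8 := hPC z (by simp [hz]) h7
        exact absurd (h8 ▸ hz) hx'P
    · intro z hz
      rw [hhd] at hz
      simp only [Option.mem_def, Option.some.injEq] at hz
      exact hz ▸ hx

/-- **Matching** between a component `Z` and `C`, with control of the first end -/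
theorem matching {G : SimpleGraph V} {U C Z : Finset V} (h2 : Conn2 G U) (hCU : C ⊆ U)
    (hC : 2 ≤ C.card) (hZU : Z ⊆ U) (hZC : ∀ z ∈ Z, z ∉ C)
    (hcl : ∀ w ∈ Z, ∀ z ∈ U, G.Adj w z → z ∈ Z ∨ z ∈ C) {x y : V} (hx : x ∈ Z) (hy : y ∈ Z)
    (hxy : x ≠ y) (T : V → Prop) (hT : T x)
    (hTcl : ∀ w ∈ Z, ∀ z ∈ Z, w ≠ y → z ≠ y → T w → G.Adj w z → T z) :
    ∃ p q c1 c2, p ∈ Z ∧ T p ∧ q ∈ Z ∧ p ≠ q ∧ c1 ∈ C ∧ c2 ∈ C ∧ c1 ≠ c2 ∧ G.Adj p c1 ∧
      G.Adj q c2 := by
  obtain ⟨x', y', P, Q, h⟩ := exists_two h2 hCU hC (hZU hx) (hZU hy) hxy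
  have hnd := List.nodup_append.1 h.nd
  obtain ⟨P0, p, hP0, hPs, hpx, hPZ, hpP⟩ := exit hZC hcl h.sp
    (fun z hz => h.sub z (by simp [hz])) hnd.1 h.op hx h.xC
  obtain ⟨Q0, q, hQ0, hQs, hqy, hQZ, hqQ⟩ := exit hZC hcl h.sq
    (fun z hz => h.sub z (by simp [hz])) hnd.2.1 h.oq hy h.yC
  have hpP' : p ∈ P := by rw [hP0]; simp [hpP]
  have hqQ' : q ∈ Q := by rw [hQ0]; simp [hqQ]
  have hyQ : y ∈ Q := List.mem_of_mem_head? (by rw [h.sq.hd]; rfl)
  have hxP : x' ∈ P := List.mem_of_getLast? h.sp.lt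
  have hyQ' : y' ∈ Q := List.mem_of_getLast? h.sq.lt
  refine ⟨p, q, x', y', hPZ p hpP, ?_, hQZ q hqQ, hnd.2.2 p hpP' q hqQ', h.xC, h.yC,
    hnd.2.2 x' hxP y' hyQ', hpx, hqy⟩
  refine chain_closed T P0 hPs.ch ?_ ?_ p hpP
  · intro w hw z hz hTw hwz
    refine hTcl w (hPZ w hw) z (hPZ z hz) ?_ ?_ hTw hwz
    · exact hnd.2.2 w (by rw [hP0]; simp [hw]) y hyQ
    · exact hnd.2.2 z (by rw [hP0]; simp [hz]) y hyQ
  · intro z hz
    rw [hPs.hd] at hz
    simp only [Option.mem_def, Option.some.injEq] at hz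
    exact hz ▸ hT

theorem matching_leaf {G : SimpleGraph V} {U C Z W : Finset V} {b : V} (h2 : Conn2 G U)
    (hCU : C ⊆ U) (hC : 2 ≤ C.card) (hZU : Z ⊆ U) (hZC : ∀ z ∈ Z, z ∉ C)
    (hcl : ∀ w ∈ Z, ∀ z ∈ U, G.Adj w z → z ∈ Z ∨ z ∈ C) (hL : Leaf G Z b W) :
    ∃ p q c1 c2, p ∈ W ∧ q ∈ Z ∧ p ≠ q ∧ c1 ∈ C ∧ c2 ∈ C ∧ c1 ≠ c2 ∧ G.Adj p c1 ∧
      G.Adj q c2 := by
  obtain ⟨x, hx⟩ := hL.ne
  have hxb : x ≠ b := fun e => hL.nb (e ▸ hx)
  obtain ⟨p, q, c1, c2, h3, h4, h5, h6, h7, h8, h9, h10, h11⟩ := matching h2 hCU hC hZU hZC hcl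
    (hL.subS hx) hL.mem hxb (fun z => z ∈ W) hx (by
      intro w _ z hz hwb hzb hw hwz
      rcases hL.cl w hw z hz hwz with h | h
      · exact h
      · exact absurd h hzb)
  exact ⟨p, q, c1, c2, h4, h5, h6, h7, h8, h9, h10, h11⟩

/-- if any two vertices of the leaf block are joined by `n` vertices inside the block, then so
are an inner vertex of the block and any other vertex of the whole set -/
theorem leaf_links {G : SimpleGraph V} {S W : Finset V} {b : V} {n : ℕ} (h : Leaf G S b W)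
    (hS : Conn1 G S) (hn : ∀ x ∈ insert b W, ∀ y ∈ insert b W, x ≠ y → ∃ Q : List V,
      Seg G Q x y ∧ Q.Nodup ∧ (∀ z ∈ Q, z ∈ insert b W) ∧ n ≤ Q.length)
    {v x : V} (hv : v ∈ W) (hx : x ∈ S) (hvx : v ≠ x) :
    ∃ Q : List V, Seg G Q v x ∧ Q.Nodup ∧ (∀ z ∈ Q, z ∈ S) ∧ n ≤ Q.length := by
  classical
  have hsub : ∀ z ∈ insert b W, z ∈ S := by
    intro z hz
    rcases Finset.mem_insert.1 hz with h7 | h7
    · rw [h7]
      exact h.mem
    · exact h.subS h7
  by_cases hxB : x ∈ insert b W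
  · obtain ⟨Q, h1, h2, h3, h4⟩ := hn v (Finset.mem_insert_of_mem hv) x hxB hvx
    exact ⟨Q, h1, h2, fun z hz => hsub z (h3 z hz), h4⟩
  · have hxW : x ∉ W := fun h1 => hxB (Finset.mem_insert_of_mem h1)
    have hvb : v ≠ b := fun e => h.nb (e ▸ hv)
    obtain ⟨P, hP, hPnd, hPB, hPlen⟩ := hn v (Finset.mem_insert_of_mem hv) b
      (Finset.mem_insert_self _ _) hvb
    obtain ⟨R, hRnd, hRch, hRhd, hRlt, hRS⟩ := Reach.path (h.reach hS hx hxW)
      (Finset.mem_sdiff.2 ⟨h.mem, h.nb⟩)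
    have hR : Seg G R b x := ⟨hRch, hRhd, hRlt⟩
    obtain ⟨R, rfl⟩ := seg_cons hR
    refine ⟨P ++ R, join hP hR, ?_, ?_, ?_⟩
    · rw [List.nodup_append]
      refine ⟨hPnd, (List.nodup_cons.1 hRnd).2, ?_⟩
      rintro z hz z' hz' rfl
      rcases Finset.mem_insert.1 (hPB z hz) with h7 | h7
      · exact (List.nodup_cons.1 hRnd).1 (h7 ▸ hz')
      · exact (Finset.mem_sdiff.1 (hRS z (List.mem_cons_of_mem _ hz'))).2 h7
    · intro z hz
      rcases List.mem_append.1 hz with hz | hz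
      · exact hsub z (hPB z hz)
      · exact (Finset.mem_sdiff.1 (hRS z (List.mem_cons_of_mem _ hz))).1
    · rw [List.length_append]
      omega

/-- **(gamma)**, component without cut vertices -/
theorem gamma_two {G : SimpleGraph V} {U Z : Finset V} {n : ℕ} (h2 : Conn2 G U) {c : List V}
    (hc : CycL G c) (hcU : ∀ z ∈ c, z ∈ U) (hmax : ∀ c' : List V, CycL G c' →
      (∀ z ∈ c', z ∈ U) → c'.length ≤ c.length) (hZU : Z ⊆ U) (hZc : ∀ z ∈ Z, z ∉ c)
    (hcl : ∀ w ∈ Z, ∀ z ∈ U, G.Adj w z → z ∈ Z ∨ z ∈ c) (hZ2 : 2 ≤ Z.card)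
    (hn : ∀ x ∈ Z, ∀ y ∈ Z, x ≠ y → ∃ Q : List V,
      Seg G Q x y ∧ Q.Nodup ∧ (∀ z ∈ Q, z ∈ Z) ∧ n ≤ Q.length) : 2 * n + 2 ≤ c.length := by
  have hC : 2 ≤ c.toFinset.card := by
    rw [List.toFinset_card_of_nodup hc.1]
    have := hc.2.1
    omega
  obtain ⟨x, hx⟩ : Z.Nonempty := Finset.card_pos.1 (by omega)
  obtain ⟨y, hy, hyx⟩ : ∃ y ∈ Z, y ≠ x := Finset.exists_mem_ne (by omega) x
  obtain ⟨p, q, c1, c2, h3, -, h5, h6, h7, h8, h9, h10, h11⟩ := matching (C := c.toFinset) h2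
    (fun z hz => hcU z (List.mem_toFinset.1 hz)) hC hZU
    (fun z hz hz' => hZc z hz (List.mem_toFinset.1 hz'))
    (fun w hw z hz hwz => by
      rw [List.mem_toFinset]
      exact hcl w hw z hz hwz) hx hy hyx.symm (fun _ => True) trivial
    (fun _ _ _ _ _ _ _ _ => trivial)
  obtain ⟨Q, hQ, hQn, hQZ, hQl⟩ := hn p h3 q h5 h6
  have := two_hubs hc hcU hmax hQ hQn (fun z hz => hZU (hQZ z hz)) (fun z hz => hZc z (hQZ z hz))
    (List.mem_toFinset.1 h7) (List.mem_toFinset.1 h8) h9 h10 h11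
  omega

/-- **(gamma)**, component with a cut vertex -/
theorem gamma_leaf {G : SimpleGraph V} {U Z W : Finset V} {b : V} {n : ℕ} (h2 : Conn2 G U)
    {c : List V}
    (hc : CycL G c) (hcU : ∀ z ∈ c, z ∈ U) (hmax : ∀ c' : List V, CycL G c' →
      (∀ z ∈ c', z ∈ U) → c'.length ≤ c.length) (hZU : Z ⊆ U) (hZc : ∀ z ∈ Z, z ∉ c)
    (hcl : ∀ w ∈ Z, ∀ z ∈ U, G.Adj w z → z ∈ Z ∨ z ∈ c) (hZ1 : Conn1 G Z) (hL : Leaf G Z b W)
    (hn : ∀ x ∈ insert b W, ∀ y ∈ insert b W, x ≠ y → ∃ Q : List V,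
      Seg G Q x y ∧ Q.Nodup ∧ (∀ z ∈ Q, z ∈ insert b W) ∧ n ≤ Q.length) :
    2 * n + 2 ≤ c.length := by
  have hC : 2 ≤ c.toFinset.card := by
    rw [List.toFinset_card_of_nodup hc.1]
    have := hc.2.1
    omega
  obtain ⟨p, q, c1, c2, h3, h5, h6, h7, h8, h9, h10, h11⟩ := matching_leaf (C := c.toFinset) h2
    (fun z hz => hcU z (List.mem_toFinset.1 hz)) hC hZU
    (fun z hz hz' => hZc z hz (List.mem_toFinset.1 hz'))
    (fun w hw z hz hwz => by
      rw [List.mem_toFinset]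
      exact hcl w hw z hz hwz) hL
  obtain ⟨Q, hQ, hQn, hQZ, hQl⟩ := leaf_links hL hZ1 hn h3 h5 h6
  have := two_hubs hc hcU hmax hQ hQn (fun z hz => hZU (hQZ z hz)) (fun z hz => hZc z (hQZ z hz))
    (List.mem_toFinset.1 h7) (List.mem_toFinset.1 h8) h9 h10 h11
  omega

/-- any two vertices of the 2-connected set are joined by `n + 2` vertices -/
theorem links_of_long {G : SimpleGraph V} {U : Finset V} (h2 : Conn2 G U) {c : List V} {n : ℕ}
    (hc : CycL G c) (hcU : ∀ z ∈ c, z ∈ U) (hn : 2 * n + 2 ≤ c.length) {x y : V} (hx : x ∈ U)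
    (hy : y ∈ U) (hxy : x ≠ y) :
    ∃ Q : List V, Seg G Q x y ∧ Q.Nodup ∧ (∀ z ∈ Q, z ∈ U) ∧ n + 2 ≤ Q.length := by
  obtain ⟨Q, h3, h4, h5, h6⟩ := arc_link h2 hc hcU hx hy hxy
  exact ⟨Q, h3, h4, h5, by omega⟩

end Pool.Agent.H27A
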